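import Pool.Agent.H629.TA.Stm

/-! GW: growth under independent draws (helper814) -/

set_option autoImplicit false

open Finset

namespace Pool.Agent.H814.TA.GW

open Pool.Agent.H629.TA

lemma cnt_cons {m : ℕ} (a : ℕ) (j : Fin m → ℕ) (b : ℕ) :
    cnt (Fin.cons a j : Fin (m + 1) → ℕ) b = (if a = b then 1 else 0) + cnt j b := by
  unfold cnt
  rw [Finset.card_filter, Finset.card_filter, Fin.sum_univ_succ]
  simp

lemma draw_zero (s : Finset ℕ) (p : ℕ → ℝ) (φ : (Fin 0 → ℕ) → ℝ) :
    draw 0 s p φ = φ (fun l => l.elim0) := by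
  unfold draw
  have h : Fintype.piFinset (fun _ : Fin 0 => s) = {fun l => l.elim0} := by
    ext j
    simp only [Fintype.mem_piFinset, mem_singleton]
    exact ⟨fun _ => funext fun l => l.elim0, fun _ l => l.elim0⟩
  rw [h, sum_singleton]
  simp

lemma draw_succ (m : ℕ) (s : Finset ℕ) (p : ℕ → ℝ) (φ : (Fin (m + 1) → ℕ) → ℝ) :
    draw (m + 1) s p φ = ∑ a ∈ s, p a * draw m s p (fun j => φ (Fin.cons a j)) := by
  unfold draw
  have h1 : ∑ j ∈ Fintype.piFinset (fun _ : Fin (m + 1) => s), (∏ l, p (j l)) * φ j =
      ∑ q ∈ s ×ˢ Fintype.piFinset (fun _ : Fin m => s),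
        (∏ l, p ((Fin.cons q.1 q.2 : Fin (m + 1) → ℕ) l)) * φ (Fin.cons q.1 q.2) := by
    refine Finset.sum_nbij' (fun j => (j 0, Fin.tail j)) (fun q => Fin.cons q.1 q.2) ?_ ?_ ?_ ?_ ?_
    · intro j hj
      rw [Fintype.mem_piFinset] at hj
      rw [mem_product, Fintype.mem_piFinset]
      exact ⟨hj 0, fun l => hj l.succ⟩
    · intro q hq
      rw [mem_product, Fintype.mem_piFinset] at hq
      rw [Fintype.mem_piFinset]
      intro l
      refine Fin.cases ?_ (fun l => ?_) l
      · simpa using hq.1
      · simpa using hq.2 l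
    · intro j _
      exact Fin.cons_self_tail j
    · intro q _
      simp
    · intro j _
      simp only [Fin.cons_self_tail]
  rw [h1, Finset.sum_product]
  refine Finset.sum_congr rfl fun a _ => ?_
  rw [Finset.mul_sum]
  refine Finset.sum_congr rfl fun j _ => ?_
  rw [Fin.prod_univ_succ]
  simp only [Fin.cons_zero, Fin.cons_succ]
  ring

theorem t_GW : S_GW := by
  intro m s p hp hp1 x ρ hρ F hF
  induction m with
  | zero =>
    intro y _
    rw [draw_zero, pow_zero, one_mul]
    have h : (fun a => y a + ((cnt (fun l : Fin 0 => (l.elim0 : ℕ)) a : ℕ) : ℝ)) = y := by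
      funext a
      simp [cnt]
    exact (congrArg F h).le
  | succ m ih =>
    intro y hy
    rw [draw_succ]
    have h1 : ∀ a ∈ s, p a * draw m s p
        (fun j => F (fun b => y b + (cnt (Fin.cons a j : Fin (m + 1) → ℕ) b : ℝ))) ≤
        p a * (ρ ^ m * F (Function.update y a (y a + 1))) := by
      intro a ha
      refine mul_le_mul_of_nonneg_left ?_ (hp a ha)
      have h2 : (fun j : Fin m → ℕ =>
          F (fun b => y b + (cnt (Fin.cons a j : Fin (m + 1) → ℕ) b : ℝ))) =
          fun j => F (fun b => Function.update y a (y a + 1) b + (cnt j b : ℝ)) := by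
        funext j
        congr 1
        funext b
        rw [cnt_cons]
        by_cases hab : a = b
        · subst hab
          rw [if_pos rfl, Function.update_self]
          push_cast
          ring
        · rw [if_neg hab, Function.update_of_ne (Ne.symm hab)]
          push_cast
          ring
      rw [h2]
      refine ih _ fun b hb => ?_
      by_cases hab : b = a
      · subst hab
        rw [Function.update_self]
        have := hy b hb
        linarith
      · rw [Function.update_of_ne hab]
        exact hy b hb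
    calc ∑ a ∈ s, p a * draw m s p
          (fun j => F (fun b => y b + (cnt (Fin.cons a j : Fin (m + 1) → ℕ) b : ℝ)))
        ≤ ∑ a ∈ s, p a * (ρ ^ m * F (Function.update y a (y a + 1))) := Finset.sum_le_sum h1
      _ = ρ ^ m * ∑ a ∈ s, p a * F (Function.update y a (y a + 1)) := by
          rw [Finset.mul_sum]
          exact Finset.sum_congr rfl fun a _ => by ring
      _ ≤ ρ ^ m * (ρ * F y) := mul_le_mul_of_nonneg_left (hF y hy) (pow_nonneg hρ m)
      _ = ρ ^ (m + 1) * F y := by rw [pow_succ]; ring

end Pool.Agent.H814.TA.GW
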